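import Pool.Agent.Helper7.HL.Stmts

/-!
# Row LAU of project HL: from the identity of Laurent polynomials to the symmetry of coefficients
-/

namespace Pool.Agent.Helper20.HL.LAU

open Pool.Agent.Helper7.HL
open Finset Polynomial

noncomputable def Pa (D : ℕ) (a : ℕ → ℕ → ℤ) : R0 :=
  ∑ j ∈ range (D + 1), ∑ i ∈ range (D + 1), ((a i j : ℤ) : R0) * qz ^ i * tz ^ j

theorem term_eq (z : ℤ) (i j : ℕ) :
    ((z : ℤ) : R0) * qz ^ i * tz ^ j = monomial j (monomial i z) := by
  have h1 : ((z : ℤ) : R0) = C (C z) := by simp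
  rw [h1, qz, tz, ← C_pow, ← C_mul, ← C_mul_X_pow_eq_monomial (n := j), ← C_mul_X_pow_eq_monomial]

theorem coeff_Pa (D : ℕ) (a : ℕ → ℕ → ℤ) (i j : ℕ) :
    ((Pa D a).coeff j).coeff i = if i ≤ D ∧ j ≤ D then a i j else 0 := by
  unfold Pa
  simp only [term_eq, finset_sum_coeff, coeff_monomial]
  simp only [apply_ite (fun p : Polynomial ℤ => p.coeff i), coeff_monomial, coeff_zero]
  rw [Finset.sum_comm]
  simp only [Finset.sum_ite_eq', Finset.mem_range]
  by_cases hj : j < D + 1
  · simp only [hj, if_true]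
    rw [Finset.sum_ite_eq']
    simp only [Finset.mem_range]
    by_cases hi : i < D + 1
    · rw [if_pos hi, if_pos ⟨by omega, by omega⟩]
    · rw [if_neg hi, if_neg (by omega)]
  · simp only [hj, if_false, Finset.sum_const_zero]
    rw [if_neg (by omega)]

theorem eq_Pa (A : R0) (D : ℕ) (h1 : ∀ j, D < j → A.coeff j = 0)
    (h2 : ∀ i j, D < i → (A.coeff j).coeff i = 0) :
    A = Pa D (fun i j => (A.coeff j).coeff i) := by
  ext j i
  rw [coeff_Pa]
  by_cases h : i ≤ D ∧ j ≤ D
  · rw [if_pos h]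
  · rw [if_neg h]
    by_cases hj : D < j
    · rw [h1 j hj]; simp
    · exact h2 i j (by omega)

theorem exists_bound (A : R0) : ∃ D : ℕ, (∀ j, D < j → A.coeff j = 0) ∧
    ∀ i j, D < i → (A.coeff j).coeff i = 0 := by
  refine ⟨max A.natDegree (A.support.sup fun j => (A.coeff j).natDegree), ?_, ?_⟩
  · intro j hj
    exact coeff_eq_zero_of_natDegree_lt (lt_of_le_of_lt (le_max_left _ _) hj)
  · intro i j hi
    by_cases hj : A.coeff j = 0
    · rw [hj]; simp
    · apply coeff_eq_zero_of_natDegree_lt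
      have hm : j ∈ A.support := mem_support_iff.mpr hj
      have := Finset.le_sup (f := fun j => (A.coeff j).natDegree) hm
      exact lt_of_le_of_lt (le_trans this (le_max_right _ _)) hi

theorem emi_qz : emi qz = qF⁻¹ := by
  simp [emi, qz]

theorem emi_tz : emi tz = tF⁻¹ := by
  simp [emi, tz]

theorem emi_Pa (D : ℕ) (a : ℕ → ℕ → ℤ) (hq : qF ≠ 0) (ht : tF ≠ 0)
    (eq : emb qz = qF) (et : emb tz = tF) :
    emi (Pa D a) * qF ^ D * tF ^ D = emb (Pa D (fun i j => a (D - i) (D - j))) := by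
  unfold Pa
  simp only [map_sum, map_mul, map_pow, map_intCast, emi_qz, emi_tz, eq, et]
  rw [← Finset.sum_range_reflect]
  rw [Finset.sum_mul, Finset.sum_mul]
  refine Finset.sum_congr rfl fun j hj => ?_
  rw [← Finset.sum_range_reflect]
  rw [Finset.sum_mul, Finset.sum_mul]
  refine Finset.sum_congr rfl fun i hi => ?_
  have hj' : j ≤ D := by have := Finset.mem_range.mp hj; omega
  have hi' : i ≤ D := by have := Finset.mem_range.mp hi; omega
  have e1 : D + 1 - 1 - i = D - i := by omega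
  have e2 : D + 1 - 1 - j = D - j := by omega
  rw [e1, e2]
  have e3 : qF ^ D = qF ^ (D - i) * qF ^ i := by rw [← pow_add]; congr 1; omega
  have e4 : tF ^ D = tF ^ (D - j) * tF ^ j := by rw [← pow_add]; congr 1; omega
  have e5 : qF⁻¹ ^ (D - i) * qF ^ (D - i) = 1 := by
    rw [← mul_pow, inv_mul_cancel₀ hq, one_pow]
  have e6 : tF⁻¹ ^ (D - j) * tF ^ (D - j) = 1 := by
    rw [← mul_pow, inv_mul_cancel₀ ht, one_pow]
  calc _ = ((a (D - i) (D - j) : ℤ) : RatFunc (RatFunc ℚ)) * (qF⁻¹ ^ (D - i) * qF ^ (D - i)) *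
        (tF⁻¹ ^ (D - j) * tF ^ (D - j)) * qF ^ i * tF ^ j := by rw [e3, e4]; ring
    _ = _ := by rw [e5, e6]; ring

theorem coeff_shift (B : R0) (w S i j : ℕ) :
    ((B * qz ^ w * tz ^ S).coeff (j + S)).coeff (i + w) = (B.coeff j).coeff i := by
  rw [tz, coeff_mul_X_pow, qz, ← C_pow, coeff_mul_C, coeff_mul_X_pow]

theorem st_LAU : ST_GEN → ST_LAU := by
  intro hG
  obtain ⟨hinj, eq, et, hq, ht, -, -⟩ := hG
  intro A n w S hA
  obtain ⟨D0, hD1, hD2⟩ := exists_bound A
  set D := D0 + w + S with hD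
  have hA' : A = Pa D (fun i j => (A.coeff j).coeff i) :=
    eq_Pa A D (fun j hj => hD1 j (by omega)) (fun i j hi => hD2 i j (by omega))
  set B := Pa D (fun i j => (A.coeff (D - j)).coeff (D - i)) with hB
  have h1 : emi A * qF ^ D * tF ^ D = emb B := by
    conv_lhs => rw [hA']
    exact emi_Pa D (fun i j => (A.coeff j).coeff i) hq ht eq et
  have hc : emb (C (C ((-1 : ℤ) ^ n))) = (-1) ^ n := by
    have : (C (C ((-1 : ℤ) ^ n)) : R0) = (((-1 : ℤ) ^ n : ℤ) : R0) := by simp
    rw [this, map_intCast]; simp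
  have h2 : B * qz ^ w * tz ^ S = C (C ((-1 : ℤ) ^ n)) * (A * qz ^ D * tz ^ D) := by
    apply hinj
    rw [map_mul, map_mul, map_mul, map_mul, map_mul, hc, map_pow emb qz, map_pow emb tz,
      map_pow emb qz, map_pow emb tz, eq, et, ← h1]
    calc _ = (emi A * qF ^ w * tF ^ S) * (qF ^ D * tF ^ D) := by ring
      _ = _ := by rw [hA]; ring
  have key : ∀ i j : ℕ, (if i ≤ w ∧ j ≤ S then (A.coeff (S - j)).coeff (w - i) else 0) =
      (-1) ^ n * (A.coeff j).coeff i := by
    intro i j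
    have h3 := congrArg (fun P : R0 => (P.coeff (j + D)).coeff (i + D)) h2
    have e1 : j + D = (j + D - S) + S := by omega
    have e2 : i + D = (i + D - w) + w := by omega
    have h4 : ((B * qz ^ w * tz ^ S).coeff (j + D)).coeff (i + D) =
        if i ≤ w ∧ j ≤ S then (A.coeff (S - j)).coeff (w - i) else 0 := by
      rw [e1, e2, coeff_shift, hB, coeff_Pa]
      by_cases h : i ≤ w ∧ j ≤ S
      · rw [if_pos h, if_pos (by omega)]
        have e3 : D - (i + D - w) = w - i := by omega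
        have e4 : D - (j + D - S) = S - j := by omega
        simp only [e3, e4]
      · rw [if_neg h, if_neg (by omega)]
    have h5 : ((C (C ((-1 : ℤ) ^ n)) * (A * qz ^ D * tz ^ D)).coeff (j + D)).coeff (i + D) =
        (-1) ^ n * (A.coeff j).coeff i := by
      rw [coeff_C_mul, coeff_C_mul, coeff_shift]
    rw [h4, h5] at h3
    exact h3
  have sq : ((-1 : ℤ) ^ n) * (-1) ^ n = 1 := by
    rw [← mul_pow]; simp
  refine ⟨fun i j hij => ?_, fun i j hi hj => ?_⟩
  · have h := key i j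
    rw [if_neg (by omega)] at h
    have : ((-1 : ℤ) ^ n) * ((-1) ^ n * (A.coeff j).coeff i) = 0 := by rw [← h]; ring
    rw [← mul_assoc, sq, one_mul] at this
    exact this
  · have h := key i j
    rw [if_pos ⟨hi, hj⟩] at h
    rw [h, ← mul_assoc, sq, one_mul]

end Pool.Agent.Helper20.HL.LAU
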